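import Pool.Agent.H61.LS.RateH

/-!
# The exact proportion of the Tate classes in single codimensions

Let `X` be a smooth projective variety of positive dimension over (the algebraic closure of) a finite
field, and let `b = dim H(X)`. For a variety `Y` let `g(Y, j)` be the dimension of the space of the
generalised Tate classes of codimension `j` (the generalised eigenspace of the eigenvalues `q ^ j` of
the Frobenius endomorphisms, over all finite fields, on `H^(2 j)(Y)`), `t(Y, j)` the dimension of the
space of the Tate classes (so that `t(Y, j)` is the number of the Jordan blocks of a sufficiently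
divisible power of the Frobenius endomorphism on the generalised Tate classes), `r(Y, j)` the rank
of the intersection pairing between the Tate classes of the codimensions `j` and `dim Y - j`, and
`c(Y, j)` the rank of the group of the cycles modulo numerical equivalence; `c ≤ r ≤ t ≤ g`. No
hypothesis is made on the Frobenius endomorphisms.

**Theorem.** Suppose that the Frobenius endomorphism is not semisimple on `H(X)`, let `m_s` be the
sizes of its Jordan blocks on `H(X)`, and let `σ² = ∑ (m_s ^ 3 - m_s) / (3 b) > 0`. Then there is a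
constant `C`, which depends only on `X`, such that for **every** variety `Z` (with nonvanishing
cohomology), every `J` and every `ε > 0`, for all large `n` and in **every single codimension** `j` of
`Z × X ^ n` with `|2 j - n dim X| ≤ J`

* `|t(j) √n / g(j) - √(2 / (π σ²))| ≤ ε`,
* `c(j) ≤ r(j) ≤ C g(j) / n ^ (3/2)` and `r(j) ≤ C t(j) / n`

on `Z × X ^ n`. So the proportion of the Tate classes is asymptotically `√(2 / (π σ² n))`: it is
determined by the sizes of the Jordan blocks on `H(X)` alone and depends neither on `Z` nor on the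
codimension.

(`pw X n` is the product of `n + 1` copies of `X`; in the formal statement the blocks have the sizes
`len s + 1`, and `jordanVar len` is `σ²`. The coefficients of the cohomology are extended to an
algebraically closed field, which changes none of the numbers `g`, `t`, `r`, `c`.)
-/

set_option autoImplicit false

open CategoryTheory AlgebraicGeometry

universe u v

namespace Pool.Agent.Results.MP_16ef92_ag.ExactProportion

open Module
open Pool.Agent.H914 Pool.Agent.H914.VarClass Pool.Agent.H914.VarClass.Obj
  Pool.Agent.H914.WeilCohomology Pool.Agent.W534 Pool.Agent.H281R3.HT Pool.Agent.H61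
  Pool.Agent.H61.GX Pool.Agent.H61.LS
open Pool.Agent.Y163 (Big)
open Pool.Agent.Y133.Half (pw FrobSemisimple)

variable {k : Type u} [Field k] {𝒱 : VarClass k} {ops : CycleOps 𝒱}

/-- **The exact proportion of the Tate classes in single codimensions.** -/
theorem result (W : WeilCohomology.{u, v} ops) [IsAlgClosed W.K] {p : ℕ} (Φ : FrobSystem W p)
    (X : 𝒱.Obj) (hd : 0 < X.dim) (hDX : ∃ D, X.IsCyc 1 D ∧ Big ops X D) :
    FrobSemisimple Φ X ∨
    ∃ (ι : Type) (_ : Fintype ι) (len : ι → ℕ) (al : ι → W.K)
      (b : Basis (Σ s : ι, Fin (len s + 1)) W.K (W.H X)),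
      IsJordanBasis (W.map (Φ.Fr X)).toLinearMap len al b ∧ 0 < jordanVar len ∧
      ∃ C : ℝ, 0 < C ∧ ∀ Z : 𝒱.Obj, (1 : W.H Z) ≠ 0 → ∀ (J : ℕ) (ε : ℝ), 0 < ε → ∃ n₀ : ℕ,
        ∀ n ≥ n₀, ∀ j : ℕ, |2 * (j : ℤ) - (n + 1) * X.dim| ≤ J →
          |(GX.tateDimIn Φ (Z.prod (pw X n)) j : ℝ) * √(n + 1 : ℝ) -
              √(2 / (Real.pi * jordanVar len)) * genTateDimIn Φ (Z.prod (pw X n)) j| ≤
            ε * genTateDimIn Φ (Z.prod (pw X n)) j ∧
          numRank ops (Z.prod (pw X n)) j ≤ tateRankIn Φ (Z.prod (pw X n)) j ∧
          (tateRankIn Φ (Z.prod (pw X n)) j : ℝ) * ((n + 1 : ℝ) * √(n + 1 : ℝ)) ≤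
            C * genTateDimIn Φ (Z.prod (pw X n)) j ∧
          (tateRankIn Φ (Z.prod (pw X n)) j : ℝ) * (n + 1 : ℝ) ≤
            C * GX.tateDimIn Φ (Z.prod (pw X n)) j := by
  have h : Pool.Agent.W534.frob Φ X 1 = (W.map (Φ.Fr X)).toLinearMap := by
    have h1 : W534.iter (Φ.Fr X) 1 = Φ.Fr X := Category.id_comp _
    unfold Pool.Agent.W534.frob
    rw [h1]
  rw [← h]
  exact rate_main Φ X hd hDX

end Pool.Agent.Results.MP_16ef92_ag.ExactProportion
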