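import Pool.Agent.H28.SS.Main

/-!
# MP_16ef92_ag: the Jordan blocks for the eigenvalue one on the products of arbitrary varieties with
almost all varieties of any weight with given Newton polygons

Let `p` be a prime and `q = p ^ m`. Fix a weight `n`, a degree `2 g` and a symmetric polygon with the
slopes `s 0 ≤ ... ≤ s (g - 1) ≤ n / 2`, not all equal to `n / 2` (for instance the Newton polygon of
the transcendental cohomology of K3 surfaces of height `h` and Picard number `22 - 2 g`, or the
Hodge polygon of a Calabi-Yau threefold). There are finitely many integral polynomials `f` of degree
`2 g` whose complex roots all have the absolute value `q ^ (n / 2)` (with constant term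
`q ^ (n g)`), and whose Newton polygon is not below the polygon and passes through the points of the
polygon in a given set `T` (if `T` contains all vertices, then the Newton polygon of `f` is the
given one). Their number tends to infinity with `m`.

Let `n i, g i, s i, T i`, for `i` in a finite set, be such data, let `E` be a number field in the
complex numbers and `r < g i` for all `i`.

**For all but at most `ε * ∏ i, #(polynomials)` of the tuples of such polynomials, for all large
`m`, the following holds.** Let `Y` be any smooth projective variety whose cohomology is spanned by
algebraic classes (for instance a product of projective spaces), and `X_i`, for all `i`, **any**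
smooth projective variety of dimension `n i` over `Y` with a model over the field with `q = p ^ m`
elements, whose cohomology is the sum of the pull-back of the cohomology of `Y` and of a subspace of
the cohomology of degree `n i` on which the Frobenius endomorphism has the characteristic polynomial
`f i`. Then for **all products** `X` of copies of `Y` and of the varieties `X_i`, with the Frobenius
endomorphism `F` over a finite field with `Q` elements over which `X` is defined, and for **all
varieties** `U` over this field (singular, not proper, reducible) such that the eigenvalues of
Frobenius on the cohomology with compact supports of `U` have rank at most `r` over `E`: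

* for all `a`, `m`, `c` and `b`, the space of the vectors in `H ^ a (X) ⊗ H_c ^ m (U)`, a part of
  `H_c ^ (a + m) (X × U)`, which are killed by `(Frob ^ M - Q ^ (c M)) ^ b` for some `M > 0` is zero
  if `a` is odd, and if `a = 2 i` its dimension is the rank of the group of the cycles of
  codimension `i` on `X` modulo numerical equivalence, times the dimension of the space of the
  vectors in `H_c ^ m (U)` which are killed by `(Frob ^ M - Q ^ ((c - i) M)) ^ b` for some `M > 0`;
  so the Jordan blocks for the Tate eigenvalues on `X × U` have the same sizes as the ones on `U`;
* for all `c` the statement `SS_c (X × U)`, over all finite extensions, holds if and only if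
  `SS_(c - i) (U)` holds for all `0 ≤ i ≤ c, dim X` such that there are cycles of codimension `i`
  on `X` which are not numerically trivial (all `i`, if `X` is projective).

(The homology in the problem is dual to the cohomology with compact supports.) This is not formal,
although Frobenius is semisimple on the cohomology of `X`: the eigenvalue one for `X × U` involves
all eigenvalues `ρ` of `U` for which `ρ α` is a power of `Q` for some eigenvalue `α` of `X`.
-/

set_option autoImplicit false

open CategoryTheory AlgebraicGeometry Polynomial

universe u v

namespace Pool.Agent.Results.MP_16ef92_ag.GivenNewtonPolygonsTimesAll

open Pool.Agent.H28.HP Pool.Agent.H28.SS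

/-- **The Jordan blocks for the eigenvalue one on the products of all varieties of small Frobenius
rank with all varieties having almost all tuples of Weil polynomials with given Newton polygons.**
-/
theorem result {p : ℕ} (hp : p.Prime) {I : Type} [Fintype I] (n g : I → ℕ) (s : I → ℕ → ℚ)
    (T : I → Set ℕ) (hs : ∀ i, IsPolygon (n i) (g i) (s i) (T i))
    (E : Subfield ℂ) [NumberField E] (r : ℕ) (hr : ∀ i, r < g i) {ε : ℝ} (hε : 0 < ε) (N : ℕ) :
    ∃ m₀ : ℕ, ∀ m ≥ m₀,
      (∀ i, (weilPolysAbove p m (n i) (g i) (s i) (T i)).Finite ∧
        N ≤ (weilPolysAbove p m (n i) (g i) (s i) (T i)).ncard) ∧
      ({f : I → ℤ[X] | (∀ i, f i ∈ weilPolysAbove p m (n i) (g i) (s i) (T i)) ∧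
        ¬ AllProductsTimes.{u, v} p m n E r f}.ncard : ℝ) ≤
      ε * ∏ i, ((weilPolysAbove p m (n i) (g i) (s i) (T i)).ncard : ℝ) :=
  main hp hs E r hr hε N

end Pool.Agent.Results.MP_16ef92_ag.GivenNewtonPolygonsTimesAll
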