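import Pool.Agent.H61.ZX.TrueTate
import Pool.Graph.R_seed8.Y133.Half.DLaw

/-!
# Semisimplicity of the Frobenius eigenvalues `q ^ j` from a proportion of the Tate classes

Let `X` and `Z` be smooth projective varieties over (the algebraic closure of) a finite field, let
`β` be the total Betti number of `Z`, and let `g n` be the dimension of the space of the
generalised Tate classes on `Z × X^n` (all degrees together).

Without any assumption: either the eigenvalues `q ^ j` of all Frobenius endomorphisms on all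
`H^(2 j)(Z × X^n)` are semisimple, or for every `ε > 0` and all large `n` the rank of the
group of cycles modulo numerical equivalence, and more generally the rank of the intersection form
on the Tate classes, are at most `(max (0, 1 - 2/β) + ε) g n`, and the Tate classes span
a space of dimension at most `(max (1/2, 1 - 1/β) + ε) g n`. (So if `Z` is a point, or more
generally `β ≤ 2`, semisimplicity on all `Z × X^n` follows if algebraic cycles make up any positive
proportion of the generalised Tate classes, for infinitely many `n`.)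

If the eigenvalues are semisimple for the powers of `X` (for instance if Frobenius is semisimple on
`H(X)`), there are integers `1 ≤ w ≤ u ≤ v ≤ β` with `2 u ≤ v + w` such that the proportions tend to
`w / v` (rank of the intersection form on the Tate classes) and to `u / v` (the Tate classes), `v`
being the limit of the ratio of the numbers of the generalised Tate classes on `Z × X^n` and `X^n`;
and if `w = u` or `u = v`, all the eigenvalues are semisimple on all `Z × X^n`, whereas
in this case `w = u = v`.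
-/

open CategoryTheory AlgebraicGeometry

universe u v

namespace Pool.Agent.Results.MP_16ef92_ag.SemisimpleFromProportion

open Module
open Pool.Agent.H914 Pool.Agent.H914.VarClass Pool.Agent.H914.VarClass.Obj
  Pool.Agent.H914.WeilCohomology Pool.Agent.W534 Pool.Agent.H281R3.HT Pool.Agent.Y133.Half
  Pool.Agent.H61.ZX

variable {k : Type u} [Field k] {𝒱 : VarClass k} {ops : CycleOps 𝒱}

theorem result (W : WeilCohomology.{u, v} ops) {p : ℕ} (Φ : FrobSystem W p) (X Z : 𝒱.Obj)
    [Nontrivial (W.H X)] [Nontrivial (W.H Z)] :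
    -- the gap
    ((∀ n : ℕ, AllSemisimple Φ (Z.prod (pw X n))) ∨
      (AtMost (max (0 : ℝ) (1 - 2 / (finrank W.K (W.H Z) : ℝ)))
        (fun n => cycRank ops (Z.prod (pw X n))) (fun n => genTateDim Φ (Z.prod (pw X n))) ∧
      AtMost (max (0 : ℝ) (1 - 2 / (finrank W.K (W.H Z) : ℝ)))
        (fun n => tateRank Φ (Z.prod (pw X n))) (fun n => genTateDim Φ (Z.prod (pw X n))) ∧
      AtMost (max (1 / 2 : ℝ) (1 - 1 / (finrank W.K (W.H Z) : ℝ)))
        (fun n => tateDim Φ (Z.prod (pw X n))) (fun n => genTateDim Φ (Z.prod (pw X n))))) ∧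
    -- the limits, if the eigenvalues are semisimple on the powers of `X`
    ((∀ n : ℕ, AllSemisimple Φ (pw X n)) → ∃ w u v : ℕ, 1 ≤ w ∧ w ≤ u ∧ u ≤ v ∧
      v ≤ finrank W.K (W.H Z) ∧ 2 * u ≤ v + w ∧
      RatioTendsTo (fun n => tateRank Φ (Z.prod (pw X n)))
        (fun n => genTateDim Φ (Z.prod (pw X n))) ((w : ℝ) / (v : ℝ)) ∧
      RatioTendsTo (fun n => tateDim Φ (Z.prod (pw X n)))
        (fun n => genTateDim Φ (Z.prod (pw X n))) ((u : ℝ) / (v : ℝ)) ∧
      RatioTendsTo (fun n => genTateDim Φ (Z.prod (pw X n)))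
        (fun n => genTateDim Φ (pw X n)) (v : ℝ) ∧
      (w = u ∨ u = v → ∀ n : ℕ, AllSemisimple Φ (Z.prod (pw X n))) ∧
      ((∀ n : ℕ, AllSemisimple Φ (Z.prod (pw X n))) → w = v)) ∧
    -- the assumption holds if the Frobenius endomorphism is semisimple on `H(X)`
    (FrobSemisimple Φ X → ∀ n : ℕ, AllSemisimple Φ (pw X n)) := by
  have hX : (1 : W.H X) ≠ 0 := one_ne_zero
  have hZ : (1 : W.H Z) ≠ 0 := one_ne_zero
  have hST : ∀ Q, (trueTateSys Φ).C Q ≤ (tateSys Φ).C Q := fun Q => TSpan_le Φ Q
  have hnum : ∀ Q, (trueTateSys Φ).Num Q = ⊥ → (trueTateSys Φ).C Q = (tateSys Φ).C Q :=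
    fun Q h => trueTate_eq_of_num Φ h
  have hT := tateSys_nondeg Φ
  have hl := exists_tate_one Φ hZ
  refine ⟨?_, ?_, ?_⟩
  · rcases ss_gap (Z := Z) hST hnum hT hX hZ hl with h | h
    · exact Or.inl fun n => (allSemisimple_iff Φ).2 (h n)
    rcases gap_law (Z := Z) hST hT hX hZ with h' | h'
    · exact Or.inl fun n => (allSemisimple_iff Φ).2 (h' n)
    right
    refine ⟨?_, ?_, ?_⟩
    · intro ε hε
      obtain ⟨n₀, hn₀⟩ := h ε hε
      refine ⟨n₀, fun n hn => ?_⟩
      change (cycRank ops (Z.prod (pw X n)) : ℝ) ≤ _ * (genTateDim Φ (Z.prod (pw X n)) : ℝ)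
      rw [genTateDim_eq, ← numDim_eq_cycRank W]
      refine le_trans ?_ (hn₀ n hn)
      exact_mod_cast a_mono (alg_le_trueTate Φ (Z.prod (pw X n)))
    · intro ε hε
      obtain ⟨n₀, hn₀⟩ := h ε hε
      refine ⟨n₀, fun n hn => ?_⟩
      change (tateRank Φ (Z.prod (pw X n)) : ℝ) ≤ _ * (genTateDim Φ (Z.prod (pw X n)) : ℝ)
      rw [genTateDim_eq, tateRank_eq]
      exact hn₀ n hn
    · intro ε hε
      obtain ⟨n₀, hn₀⟩ := h' ε hε
      refine ⟨n₀, fun n hn => ?_⟩
      change (tateDim Φ (Z.prod (pw X n)) : ℝ) ≤ _ * (genTateDim Φ (Z.prod (pw X n)) : ℝ)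
      rw [genTateDim_eq, tateDim_eq]
      exact hn₀ n hn
  · intro h
    obtain ⟨w, u, v, h1, h2, h3, h4, h5, t1, t2, t3, h6, h7⟩ := ss_law (Z := Z) hST
      (fun n => (allSemisimple_iff Φ).1 (h n)) hnum hT hX hZ hl
    refine ⟨w, u, v, h1, h2, h3, h4, h5, ?_, ?_, ?_, ?_, ?_⟩
    · refine t1.congr fun n => ?_
      change _ = (tateRank Φ (Z.prod (pw X n)) : ℝ) / (genTateDim Φ (Z.prod (pw X n)) : ℝ)
      rw [genTateDim_eq, tateRank_eq]
      rfl
    · refine t2.congr fun n => ?_
      change _ = (tateDim Φ (Z.prod (pw X n)) : ℝ) / (genTateDim Φ (Z.prod (pw X n)) : ℝ)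
      rw [genTateDim_eq, tateDim_eq]
      rfl
    · refine t3.congr fun n => ?_
      change _ = (genTateDim Φ (Z.prod (pw X n)) : ℝ) / (genTateDim Φ (pw X n) : ℝ)
      rw [genTateDim_eq, genTateDim_eq]
      rfl
    · exact fun h n => (allSemisimple_iff Φ).2 (h6 h n)
    · exact fun h => h7 fun n => (allSemisimple_iff Φ).1 (h n)
  · intro h n s j _ c hc
    exact Pool.Agent.K7.H8.TH.ss_pw h n hc

end Pool.Agent.Results.MP_16ef92_ag.SemisimpleFromProportion
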