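import Pool.Agent.H61.LS.Alg
import Pool.Agent.H61.LS.Frob
import Pool.Graph.R_seed8.Y133.Half.DLaw

/-!
# Semisimplicity of the Frobenius eigenvalues `q ^ j` from one codimension

Let `X` and `Z` be smooth projective varieties over (the algebraic closure of) a finite field, with
`dim X > 0`, and let `β` be the total Betti number of `Z`. For a variety `Y` let `g(Y, j)` be
the dimension of the space of the generalised Tate classes of codimension `j` (the generalised
eigenspaces of the eigenvalues `q ^ j` of the Frobenius endomorphisms on `H^(2 j)(Y)`), `t(Y, j)` the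
dimension of the space of the Tate classes, `r(Y, j)` the rank of the intersection pairing between
the Tate classes of the codimensions `j` and `dim Y - j`, and `c(Y, j)` the rank of the group of the
cycles modulo numerical equivalence; so `c ≤ r ≤ t ≤ g`. Codimensions on `Z × X^n` at bounded
distance from `n dim X / 2` are called near the middle. No hypothesis is made on the Frobenius
endomorphisms.

* Either the eigenvalues `q ^ j` are semisimple on all `X^n`, or for **every** `Z` the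
  quotients `r(Z × X^n, j) / t(Z × X^n, j)` tend to zero, uniformly for all `j` near the middle.
* Either the eigenvalues `q ^ j` are semisimple in all degrees on all `Z × X^n`, or for every
  `ε > 0` and all large `n`, for all complementary codimensions `i` and `j` near the middle,
  `t(i) + t(j) ≤ (max (1/2, 1 - 1/β) + ε) (g(i) + g(j))` and
  `c(i) ≤ r(i) ≤ (max (0, 1 - 2/β) + ε) g(i)` on `Z × X^n`. So, for `Z` a point or `β ≤ 2`, the
  eigenvalues `q ^ j` are semisimple in all degrees on all `Z × X^n` as soon as for infinitely many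
  `n` there is one **single** codimension `i` near the middle in which the algebraic cycles make up
  at least a fixed positive proportion of the generalised Tate classes.
* If the eigenvalues are semisimple on the powers of `X`, there are integers
  `1 ≤ w ≤ u ≤ v ≤ β` with `2 u ≤ v + w` such that for all sequences `i_n`, `j_n` near the middle
  `r(Z × X^n, i_n) / g(Z × X^n, j_n)`, `t(Z × X^n, i_n) / g(Z × X^n, j_n)` and
  `g(Z × X^n, i_n) / g(X^n, j_n)` tend to `w / v`, `u / v` and `v`; and if `w = u` or `u = v`, the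
  eigenvalues are semisimple on all `Z × X^n`, and in this case `w = u = v`.
-/

set_option autoImplicit false

open CategoryTheory AlgebraicGeometry Filter Topology

universe u v

namespace Pool.Agent.Results.MP_16ef92_ag.SingleCodimensions

open Module
open Pool.Agent.H914 Pool.Agent.H914.VarClass Pool.Agent.H914.VarClass.Obj
  Pool.Agent.H914.WeilCohomology Pool.Agent.W534 Pool.Agent.H281R3.HT Pool.Agent.H61
  Pool.Agent.H61.GX Pool.Agent.H61.LS
open Pool.Agent.H61.ZX (RatioTendsTo AllSemisimple allSemisimple_iff trueTate_eq_of_num)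
open Pool.Agent.Y163 (Big)
open Pool.Agent.Y133.Half (pw algSys tateSys trueTateSys alg_le_tate alg_le_trueTate TSpan_le)

variable {k : Type u} [Field k] {𝒱 : VarClass k} {ops : CycleOps 𝒱}

/-- **Semisimplicity of the Frobenius eigenvalues `q ^ j` from one codimension.** `pw X n` is the
product of `n + 1` copies of `X`. -/
theorem result (W : WeilCohomology.{u, v} ops) {p : ℕ} (Φ : FrobSystem W p) (X Z : 𝒱.Obj)
    (hd : 0 < X.dim) (hDX : ∃ D, X.IsCyc 1 D ∧ Big ops X D)
    (hDZ : ∃ D, Z.IsCyc 1 D ∧ Big ops Z D) :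
    -- the zero-one law for the powers of `X`, seen on any `Z × X^n`
    ((∀ n : ℕ, AllSemisimple Φ (pw X n)) ∨
      ∀ (J : ℕ) (ε : ℝ), 0 < ε → ∃ n₀ : ℕ, ∀ n ≥ n₀, ∀ j : ℕ,
        |2 * (j : ℤ) - (n + 1) * X.dim| ≤ J →
          (tateRankIn Φ (Z.prod (pw X n)) j : ℝ) ≤
            ε * GX.tateDimIn Φ (Z.prod (pw X n)) j) ∧
    -- the gap
    ((∀ n : ℕ, AllSemisimple Φ (Z.prod (pw X n))) ∨
      ∀ (J : ℕ) (ε : ℝ), 0 < ε → ∃ n₀ : ℕ, ∀ n ≥ n₀, ∀ i j : ℕ,
        i + j = (Z.prod (pw X n)).dim → |2 * (i : ℤ) - (n + 1) * X.dim| ≤ J →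
        (GX.tateDimIn Φ (Z.prod (pw X n)) i : ℝ) + GX.tateDimIn Φ (Z.prod (pw X n)) j ≤
          (max (1 / 2 : ℝ) (1 - 1 / (finrank W.K (W.H Z) : ℝ)) + ε) *
            (genTateDimIn Φ (Z.prod (pw X n)) i + genTateDimIn Φ (Z.prod (pw X n)) j) ∧
        numRank ops (Z.prod (pw X n)) i ≤ tateRankIn Φ (Z.prod (pw X n)) i ∧
        (tateRankIn Φ (Z.prod (pw X n)) i : ℝ) ≤
          (max (0 : ℝ) (1 - 2 / (finrank W.K (W.H Z) : ℝ)) + ε) *
            genTateDimIn Φ (Z.prod (pw X n)) i) ∧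
    -- the limits, if the eigenvalues are semisimple on the powers of `X`
    ((∀ n : ℕ, AllSemisimple Φ (pw X n)) → ∃ w u v : ℕ, 1 ≤ w ∧ w ≤ u ∧ u ≤ v ∧
      v ≤ finrank W.K (W.H Z) ∧ 2 * u ≤ v + w ∧
      (∀ i j : ℕ → ℕ, NearMiddle X i → NearMiddle X j →
        RatioTendsTo (fun n => tateRankIn Φ (Z.prod (pw X n)) (i n))
          (fun n => genTateDimIn Φ (Z.prod (pw X n)) (j n)) ((w : ℝ) / (v : ℝ)) ∧
        RatioTendsTo (fun n => GX.tateDimIn Φ (Z.prod (pw X n)) (i n))
          (fun n => genTateDimIn Φ (Z.prod (pw X n)) (j n)) ((u : ℝ) / (v : ℝ)) ∧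
        RatioTendsTo (fun n => genTateDimIn Φ (Z.prod (pw X n)) (i n))
          (fun n => genTateDimIn Φ (pw X n) (j n)) (v : ℝ)) ∧
      (w = u ∨ u = v → ∀ n : ℕ, AllSemisimple Φ (Z.prod (pw X n))) ∧
      ((∀ n : ℕ, AllSemisimple Φ (Z.prod (pw X n))) → w = v)) := by
  obtain ⟨D, hD, hD'⟩ := hDX
  obtain ⟨E, hE, hE'⟩ := hDZ
  have htr : W.tr X (W.cl X D ^ X.dim) ≠ 0 := hD'.tr hD
  have htrZ : W.tr Z (W.cl Z E ^ Z.dim) ≠ 0 := hE'.tr hE
  have hST : ∀ Q, (trueTateSys Φ).C Q ≤ (tateSys Φ).C Q := fun Q => TSpan_le Φ Q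
  have hgr : SGr (trueTateSys Φ) := sgr_trueTate Φ
  have hgrT : SGr (tateSys Φ) := sgr_tate Φ
  have hnum : ∀ Q, (trueTateSys Φ).Num Q = ⊥ → (trueTateSys Φ).C Q = (tateSys Φ).C Q :=
    fun Q h => trueTate_eq_of_num Φ h
  have hZ1 : (1 : W.H Z) ≠ 0 := by
    intro h1
    apply htrZ
    have h2 : W.cl Z E ^ Z.dim = 1 * W.cl Z E ^ Z.dim := (one_mul _).symm
    rw [h2, h1, zero_mul, map_zero]
  have hpt : ∃ l ∈ GC (trueTateSys Φ) Z Z.dim, W.tr Z l = 1 := by
    obtain ⟨l, hl, hl1⟩ := alg_pt hE htrZ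
    exact ⟨l, GC_mono (alg_le_trueTate Φ) _ _ hl, hl1⟩
  have hS : GBig (trueTateSys Φ) X := gbig_of_par (trueTateSys Φ) (par_mem_true Φ X) hd
    (alg_le_trueTate Φ) hD htr
  have hT : GBig (tateSys Φ) X := gbig_of_par (tateSys Φ)
    (GOp_mono hST _ _ _ (par_mem_true Φ X)) hd (alg_le_tate Φ) hD htr
  have hTn := gnondeg_tate Φ
  have hrank : ∀ (n j : ℕ), j ≤ (Z.prod (pw X n)).dim →
      tateRankIn Φ (Z.prod (pw X n)) j =
        ag (trueTateSys Φ) (Z.prod (pw X n)) j (Z.dim + (n + 1) * X.dim - j) := by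
    intro n j hj
    rw [tateRankIn_eq hj]
    congr 1
    rw [dim_prod, dim_pw]
    push_cast
    ring
  have hall : ∀ Q : 𝒱.Obj, AllSemisimple Φ Q ↔ (trueTateSys Φ).C Q = (tateSys Φ).C Q :=
    fun Q => allSemisimple_iff Φ
  -- the zero law
  have hzero : ¬ (∀ n, AllSemisimple Φ (pw X n)) → ∀ (J : ℕ) (ε : ℝ), 0 < ε → ∃ n₀ : ℕ,
      ∀ n ≥ n₀, ∀ j : ℕ, |2 * (j : ℤ) - (n + 1) * X.dim| ≤ J →
        (tateRankIn Φ (Z.prod (pw X n)) j : ℝ) ≤ ε * GX.tateDimIn Φ (Z.prod (pw X n)) j := by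
    intro hne J ε hε
    have hN : ¬ ∀ n, (trueTateSys Φ).Num (pw X n) = ⊥ := fun h =>
      hne fun n => (hall _).2 (hnum _ (h n))
    obtain ⟨N, hN'⟩ := exists_nat_gt (1 / ε)
    obtain ⟨n₀, hn₀⟩ := gzero_law hgr hS hZ1 hN N J
    refine ⟨max n₀ J, fun n hn j hj => ?_⟩
    have hjd := le_of_near' (Z := Z) hd ((le_max_right _ _).trans hn) hj
    have h1 := hn₀ n ((le_max_left _ _).trans hn) j (Z.dim + (n + 1) * X.dim - j) (by ring) hj
    rw [hrank n j hjd, gxTateDimIn_eq]
    have h2 : ((N : ℝ) * ag (trueTateSys Φ) (Z.prod (pw X n)) j (Z.dim + (n + 1) * X.dim - j)) ≤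
        finrank W.K (GC (trueTateSys Φ) (Z.prod (pw X n)) j) := by exact_mod_cast h1
    have h3 : (0 : ℝ) ≤ ag (trueTateSys Φ) (Z.prod (pw X n)) j (Z.dim + (n + 1) * X.dim - j) :=
      Nat.cast_nonneg _
    have h4 : 1 ≤ ε * N := by
      rw [div_lt_iff₀ hε] at hN'
      linarith
    calc (ag (trueTateSys Φ) (Z.prod (pw X n)) j (Z.dim + (n + 1) * X.dim - j) : ℝ)
        ≤ (ε * N) * ag (trueTateSys Φ) (Z.prod (pw X n)) j (Z.dim + (n + 1) * X.dim - j) :=
          le_mul_of_one_le_left h3 h4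
      _ = ε * (N * ag (trueTateSys Φ) (Z.prod (pw X n)) j (Z.dim + (n + 1) * X.dim - j)) := by
          ring
      _ ≤ _ := mul_le_mul_of_nonneg_left h2 hε.le
  -- the three integers
  have hthree : (∀ n, AllSemisimple Φ (pw X n)) → _ := fun h =>
    gthree (Z := Z) hgr hgrT hST (fun n => (hall _).1 (h n)) hnum hS hT hTn hpt
  have hleg : ∀ (n j : ℕ), GX.tateDimIn Φ (Z.prod (pw X n)) j ≤
      genTateDimIn Φ (Z.prod (pw X n)) j := by
    intro n j
    rw [gxTateDimIn_eq, genTateDimIn_eq]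
    exact Submodule.finrank_mono (GC_mono hST _ _)
  refine ⟨?_, ?_, ?_⟩
  · by_cases h : ∀ n, AllSemisimple Φ (pw X n)
    · exact Or.inl h
    · exact Or.inr (hzero h)
  · by_cases hne : ∀ n, AllSemisimple Φ (Z.prod (pw X n))
    · exact Or.inl hne
    right
    intro J ε hε
    set β : ℝ := (finrank W.K (W.H Z) : ℝ) with hβ
    -- the Tate classes
    have g1 : ∃ n₀ : ℕ, ∀ n ≥ n₀, ∀ i j : ℕ,
        i + j = (Z.prod (pw X n)).dim → |2 * (i : ℤ) - (n + 1) * X.dim| ≤ J →
        (GX.tateDimIn Φ (Z.prod (pw X n)) i : ℝ) + GX.tateDimIn Φ (Z.prod (pw X n)) j ≤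
          (max (1 / 2 : ℝ) (1 - 1 / β) + ε) *
            (genTateDimIn Φ (Z.prod (pw X n)) i + genTateDimIn Φ (Z.prod (pw X n)) j) := by
      rcases ggap hgr hgrT hST hS hT hTn hpt with h | h
      · exact absurd (fun n => (hall _).2 (c_eq_of_gc hgrT hST fun j => h n j)) hne
      · obtain ⟨n₀, hn₀⟩ := h ε hε J
        refine ⟨n₀, fun n hn i j hij hJ => ?_⟩
        have h1 := hn₀ n hn i j (by
          have h2 : (i : ℤ) + j = (Z.prod (pw X n)).dim := by exact_mod_cast hij
          rw [h2, dim_prod, dim_pw]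
          push_cast
          ring) hJ
        rw [← genTateDimIn_symm Φ hij, gxTateDimIn_eq, gxTateDimIn_eq, genTateDimIn_eq]
        linarith
    -- the rank
    have g2 : ∃ n₀ : ℕ, ∀ n ≥ n₀, ∀ i : ℕ, |2 * (i : ℤ) - (n + 1) * X.dim| ≤ J →
        (tateRankIn Φ (Z.prod (pw X n)) i : ℝ) ≤
          (max (0 : ℝ) (1 - 2 / β) + ε) * genTateDimIn Φ (Z.prod (pw X n)) i := by
      by_cases h : ∀ n, AllSemisimple Φ (pw X n)
      · obtain ⟨w, u, v, hw1, hwu, huv, hv, h2u, a1, a2, a3, a4, h6, h7⟩ := hthree h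
        have h8 : ¬ (w = u ∨ u = v) := fun h => hne fun n => (hall _).2 (h6 h n)
        push Not at h8
        have h9 : w + 2 ≤ v := by
          have h10 := lt_of_le_of_ne hwu h8.1
          have h11 := lt_of_le_of_ne huv h8.2
          omega
        have hwv : (w : ℝ) + 2 ≤ v := by exact_mod_cast h9
        have hw1' : (1 : ℝ) ≤ w := by exact_mod_cast hw1
        have hvβ : (v : ℝ) ≤ β := by rw [hβ]; exact_mod_cast hv
        obtain ⟨δ, hδ0, hδ1, hδε⟩ : ∃ δ : ℝ, 0 < δ ∧ δ ≤ 1 ∧ δ * (2 + ε) ≤ ε := by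
          refine ⟨ε / (2 + ε), by positivity, ?_, ?_⟩
          · rw [div_le_one (by linarith)]; linarith
          · rw [div_mul_cancel₀]; linarith
        obtain ⟨n₁, hn₁⟩ := Asy.eventually a1 hδ0 J
        obtain ⟨n₃, hn₃⟩ := Asy.eventually a3 hδ0 J
        refine ⟨max (max n₁ n₃) J, fun n hn i hi => ?_⟩
        have m1 : n₁ ≤ n := (le_max_left _ _).trans ((le_max_left _ _).trans hn)
        have m3 : n₃ ≤ n := (le_max_right _ _).trans ((le_max_left _ _).trans hn)
        have hjd := le_of_near' (Z := Z) hd ((le_max_right _ _).trans hn) hi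
        have e1 := (hn₁ n m1 i hi).2
        have e3 := (hn₃ n m3 i hi).1
        rw [hrank n i hjd, genTateDimIn_eq]
        have hx := nrmg_pos hT n
        set x := nrmg (tateSys Φ) X n with hxdef
        set r : ℝ := (ag (trueTateSys Φ) (Z.prod (pw X n)) i
          (Z.dim + (n + 1) * X.dim - i) : ℝ) with hr
        set g : ℝ := (finrank W.K (GC (tateSys Φ) (Z.prod (pw X n)) i) : ℝ) with hg
        have hv0 : (0 : ℝ) < v := by linarith
        have k1 : (v - 2 + δ : ℝ) ≤ (1 - 2 / v + ε) * (v - δ) := by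
          have k2 : (1 - 2 / v + ε : ℝ) * (v - δ) =
              (v - 2 + ε * v) - δ * (1 - 2 / v + ε) := by
            field_simp
          rw [k2]
          have k3 : (0 : ℝ) ≤ 2 / v := by positivity
          nlinarith
        have k4 : (1 - 2 / v + ε : ℝ) ≤ max 0 (1 - 2 / β) + ε := by
          have k5 : 2 / β ≤ 2 / (v : ℝ) := div_le_div_of_nonneg_left (by norm_num) hv0 hvβ
          have k6 := le_max_right (0 : ℝ) (1 - 2 / β)
          linarith
        have hg0 : 0 ≤ g := Nat.cast_nonneg _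
        have k7 : (0 : ℝ) ≤ 1 - 2 / v + ε := by
          have k8 : 2 / (v : ℝ) ≤ 1 := by
            rw [div_le_one hv0]; linarith
          linarith
        calc r ≤ (w + δ) * x := e1
          _ ≤ (v - 2 + δ) * x := mul_le_mul_of_nonneg_right (by linarith) hx.le
          _ ≤ ((1 - 2 / v + ε) * (v - δ)) * x := mul_le_mul_of_nonneg_right k1 hx.le
          _ = (1 - 2 / v + ε) * ((v - δ) * x) := by ring
          _ ≤ (1 - 2 / v + ε) * g := mul_le_mul_of_nonneg_left e3 k7
          _ ≤ _ := mul_le_mul_of_nonneg_right k4 hg0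
      · obtain ⟨n₀, hn₀⟩ := hzero h J ε hε
        refine ⟨n₀, fun n hn i hi => (hn₀ n hn i hi).trans ?_⟩
        have h1 : (GX.tateDimIn Φ (Z.prod (pw X n)) i : ℝ) ≤
            genTateDimIn Φ (Z.prod (pw X n)) i := by exact_mod_cast hleg n i
        have h2 := le_max_left (0 : ℝ) (1 - 2 / β)
        have h3 : (0 : ℝ) ≤ genTateDimIn Φ (Z.prod (pw X n)) i := Nat.cast_nonneg _
        calc ε * (GX.tateDimIn Φ (Z.prod (pw X n)) i : ℝ)
            ≤ ε * genTateDimIn Φ (Z.prod (pw X n)) i := mul_le_mul_of_nonneg_left h1 hε.le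
          _ ≤ _ := mul_le_mul_of_nonneg_right (by linarith) h3
    obtain ⟨n₁, hn₁⟩ := g1
    obtain ⟨n₂, hn₂⟩ := g2
    refine ⟨max n₁ n₂, fun n hn i j hij hJ => ⟨hn₁ n ((le_max_left _ _).trans hn) i j hij hJ, ?_,
      hn₂ n ((le_max_right _ _).trans hn) i hJ⟩⟩
    rw [rr_eq W (by omega), tateRankIn_eq (by omega)]
    exact ag_mono (alg_le_trueTate Φ) _ _ _
  · intro h
    obtain ⟨w, u, v, hw1, hwu, huv, hv, h2u, a1, a2, a3, a4, h6, h7⟩ := hthree h
    have hv0 : (v : ℝ) ≠ 0 := by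
      have : 0 < v := by omega
      exact_mod_cast this.ne'
    have hν : ∀ n, nrmg (tateSys Φ) X n ≠ 0 := fun n => (nrmg_pos hT n).ne'
    refine ⟨w, u, v, hw1, hwu, huv, hv, h2u, fun i j hi hj => ⟨?_, ?_, ?_⟩, ?_, ?_⟩
    · refine ((a1.tendsto (nrmg_pos hT) hi).div (a3.tendsto (nrmg_pos hT) hj) hv0).congr' ?_
      obtain ⟨n₀, hn₀⟩ := hi.le hd
      filter_upwards [eventually_ge_atTop n₀] with n hn
      have e1 := hn₀ n hn
      rw [Pi.div_apply, div_div_div_cancel_right₀ (hν n), genTateDimIn_eq, hrank]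
      rw [dim_prod, dim_pw]
      exact e1.trans (Nat.le_add_left _ _)
    · refine ((a2.tendsto (nrmg_pos hT) hi).div (a3.tendsto (nrmg_pos hT) hj) hv0).congr
        fun n => ?_
      dsimp only
      rw [Pi.div_apply, div_div_div_cancel_right₀ (hν n), gxTateDimIn_eq, genTateDimIn_eq]
    · have h1 := (a3.tendsto (nrmg_pos hT) hi).div (a4.tendsto (nrmg_pos hT) hj) one_ne_zero
      rw [div_one] at h1
      refine h1.congr fun n => ?_
      dsimp only
      rw [Pi.div_apply, div_div_div_cancel_right₀ (hν n), genTateDimIn_eq, genTateDimIn_eq]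
    · exact fun h n => (hall _).2 (h6 h n)
    · exact fun h => h7 fun n => (hall _).1 (h n)

end Pool.Agent.Results.MP_16ef92_ag.SingleCodimensions
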